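import Pool.Agent.helper88.RQ2.Spec

/-! # Project RQ, row ASU: strict form of `deletion_U` -/

open Set Matroid RadonMin

namespace RadonQ2

theorem ASU_proof : ASU_stmt := by
  intro q N k j tj cq hj hk hq htj hcq hN hor
  have hjj : 0 < j := by linarith
  rcases hq with hq | hq
  · subst hq
    have e1 : cq = j * (2 * j - 1) := by nlinarith
    have e2 : j * N - tj * (2 * k) - cq
        = j * (N - (2 * j * k + 1)) + (j * j - j) * (k - 2) := by
      have : tj * (2 * k) = j * (j + 1) * k := by rw [← htj]; ring
      rw [this, e1]; ring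
    have h1 : 0 ≤ j * (N - (2 * j * k + 1)) := mul_nonneg hjj.le (by linarith)
    have h3 : 0 < j * j - j := by nlinarith
    have h2 : 0 ≤ (j * j - j) * (k - 2) := mul_nonneg h3.le (by linarith)
    rcases hor with h | h
    · have : 0 < (j * j - j) * (k - 2) := mul_pos h3 (by linarith)
      linarith
    · have : 0 < j * (N - (2 * j * k + 1)) := mul_pos hjj (by linarith)
      linarith
  · subst hq
    have e1 : cq = j * (2 * j + 1) := by nlinarith
    have e2 : j * N - tj * (2 * k) - cq
        = j * (N - ((2 * j + 1) * k + 1)) + (j * j) * (k - 2) := by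
      have : tj * (2 * k) = j * (j + 1) * k := by rw [← htj]; ring
      rw [this, e1]; ring
    have h1 : 0 ≤ j * (N - ((2 * j + 1) * k + 1)) := mul_nonneg hjj.le (by linarith)
    have h3 : 0 < j * j := by nlinarith
    have h2 : 0 ≤ (j * j) * (k - 2) := mul_nonneg h3.le (by linarith)
    rcases hor with h | h
    · have : 0 < (j * j) * (k - 2) := mul_pos h3 (by linarith)
      linarith
    · have : 0 < j * (N - ((2 * j + 1) * k + 1)) := mul_pos hjj (by linarith)
      linarith

end RadonQ2
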